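import Pool.Agent.H547.C9.Stm

set_option autoImplicit false

/-!
# The sum of `(4k+1) C(2k,k)³/(-64)^k` modulo `p²`
-/

namespace Pool.Agent.H224.C9

open Finset Pool.Agent.R439.PL Pool.Agent.H547

/-- the terms of the well-poised series -/
def t (n : ℕ) : ℕ → ℚ
  | 0 => 1
  | k + 1 => t n k * (-((2 * (k : ℚ) + 1) * ((2 * (k : ℚ) + 1) ^ 2 - (2 * (n : ℚ) + 1) ^ 2)) /
      ((2 * (k : ℚ) + 2) * ((2 * (k : ℚ) + 2) ^ 2 - (2 * (n : ℚ) + 1) ^ 2)))

/-- the terms of the limit series -/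
def s : ℕ → ℚ
  | 0 => 1
  | k + 1 => s k * (-(2 * (k : ℚ) + 1) ^ 3 / (2 * (k : ℚ) + 2) ^ 3)

theorem t_zero (n : ℕ) : t n 0 = 1 := rfl

theorem den_ne (n k : ℕ) :
    (2 * (k : ℚ) + 2) * ((2 * (k : ℚ) + 2) ^ 2 - (2 * (n : ℚ) + 1) ^ 2) ≠ 0 := by
  have h1 : (2 * (k : ℚ) + 1 - 2 * n) ≠ 0 := by
    have : (2 * (k : ℤ) + 1 - 2 * n) ≠ 0 := by omega
    exact_mod_cast this
  have h2 : (2 * (k : ℚ) + 2 * n + 3) ≠ 0 := by positivity
  have h3 : (2 * (k : ℚ) + 2) ≠ 0 := by positivity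
  have e : (2 * (k : ℚ) + 2) ^ 2 - (2 * (n : ℚ) + 1) ^ 2 =
      (2 * (k : ℚ) + 1 - 2 * n) * (2 * (k : ℚ) + 2 * n + 3) := by ring
  rw [e]
  exact mul_ne_zero h3 (mul_ne_zero h1 h2)

theorem t_succ (n k : ℕ) :
    t n (k + 1) * ((2 * (k : ℚ) + 2) * ((2 * (k : ℚ) + 2) ^ 2 - (2 * (n : ℚ) + 1) ^ 2)) =
      t n k * (-((2 * (k : ℚ) + 1) * ((2 * (k : ℚ) + 1) ^ 2 - (2 * (n : ℚ) + 1) ^ 2))) := by
  have h := den_ne n k
  show t n k * (-((2 * (k : ℚ) + 1) * ((2 * (k : ℚ) + 1) ^ 2 - (2 * (n : ℚ) + 1) ^ 2)) /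
      ((2 * (k : ℚ) + 2) * ((2 * (k : ℚ) + 2) ^ 2 - (2 * (n : ℚ) + 1) ^ 2))) * _ = _
  rw [mul_assoc, div_mul_cancel₀ _ h]

/-- the relation between `n` and `n + 1` -/
theorem t_n (n k : ℕ) :
    t (n + 1) k * (((n : ℚ) + 1 - k) * (2 * n + 3 + 2 * k) * (2 * n + 1)) =
      t n k * (((n : ℚ) + 1 + k) * (2 * n + 3) * (2 * n + 1 - 2 * k)) := by
  induction k with
  | zero =>
    rw [t_zero, t_zero]
    push_cast
    ring
  | succ k ih =>
    have h1 := t_succ (n + 1) k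
    have h2 := t_succ n k
    have hD : ((2 * (k : ℚ) + 2) * ((2 * (k : ℚ) + 2) ^ 2 - (2 * ((n + 1 : ℕ) : ℚ) + 1) ^ 2)) *
        ((2 * (k : ℚ) + 2) * ((2 * (k : ℚ) + 2) ^ 2 - (2 * (n : ℚ) + 1) ^ 2)) ≠ 0 :=
      mul_ne_zero (den_ne (n + 1) k) (den_ne n k)
    apply mul_left_cancel₀ hD
    push_cast at h1 h2 ih ⊢
    linear_combination ((2 * (k : ℚ) + 2) * ((2 * (k : ℚ) + 2) ^ 2 - (2 * (n : ℚ) + 1) ^ 2) *
      ((n : ℚ) - k) * (2 * n + 5 + 2 * k) * (2 * n + 1)) * h1 -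
      (((n : ℚ) + 2 + k) * (2 * n + 3) * (2 * n - 1 - 2 * k) *
        ((2 * (k : ℚ) + 2) * ((2 * (k : ℚ) + 2) ^ 2 - (2 * ((n : ℚ) + 1) + 1) ^ 2))) * h2 +
      ((2 * (k : ℚ) + 2) * (2 * k + 1 - 2 * n) * (n - k) * (2 * n + 5 + 2 * k) * (2 * k + 1) * 4 *
        (k + n + 2)) * ih

/-- the partial sums of the telescoping relation -/
theorem part_sum (n m : ℕ) (hm : m ≤ n) :
    (∑ i ∈ range (m + 1), (4 * (i : ℚ) + 1) * ((2 * n + 1) * t (n + 1) i + (2 * n + 3) * t n i)) *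
      (2 * m + 2 * n + 3) = 4 * (2 * n + 3) * (2 * m + 1) * (m + n + 1) * t n m := by
  induction m with
  | zero =>
    rw [zero_add, sum_range_one, t_zero, t_zero]
    push_cast
    ring
  | succ m ih =>
    have ih' := ih (by omega)
    rw [sum_range_succ]
    have h1 := t_n n (m + 1)
    have h2 := t_succ n m
    have hne : ((n : ℚ) - m) * (2 * m + 2 * n + 3) ≠ 0 := by
      refine mul_ne_zero ?_ (by positivity)
      have h3 : ((n : ℤ) - m) ≠ 0 := by omega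
      exact_mod_cast h3
    apply mul_left_cancel₀ hne
    push_cast at h1 h2 ih' ⊢
    linear_combination ((2 * (m : ℚ) + 2 * n + 5) * (n - m)) * ih' +
      ((4 * (m : ℚ) + 5) * (2 * m + 2 * n + 3)) * h1 - ((2 * (m : ℚ) + 2 * n + 5) * (2 * n + 3)) * h2

/-- the exact identity -/
theorem exact_sum (n : ℕ) :
    ∑ i ∈ range (n + 1), (4 * (i : ℚ) + 1) * t n i = (-1) ^ n * (2 * n + 1) := by
  induction n with
  | zero =>
    rw [zero_add, sum_range_one, t_zero]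
    push_cast
    ring
  | succ n ih =>
    have h1 := part_sum n n le_rfl
    have h2 := t_n n n
    have h3 := t_succ (n + 1) n
    have h4 : ∑ i ∈ range (n + 1),
        (4 * (i : ℚ) + 1) * ((2 * n + 1) * t (n + 1) i + (2 * n + 3) * t n i) =
        (2 * n + 1) * ∑ i ∈ range (n + 1), (4 * (i : ℚ) + 1) * t (n + 1) i +
        (2 * n + 3) * ∑ i ∈ range (n + 1), (4 * (i : ℚ) + 1) * t n i := by
      rw [mul_sum, mul_sum, ← sum_add_distrib]
      exact sum_congr rfl fun i _ => by ring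
    rw [h4, ih] at h1
    rw [sum_range_succ]
    have h5 : ((n : ℚ) + 1) ≠ 0 := by positivity
    have h6 : t (n + 1) (n + 1) * (4 * n + 5) = -(4 * (2 * n + 1)) * t (n + 1) n := by
      apply mul_left_cancel₀ h5
      push_cast at h3
      linear_combination (-1 / 2 : ℚ) * h3
    have h7 : (2 * (n : ℚ) + 1) ≠ 0 := by positivity
    have h8 : t (n + 1) n * (4 * n + 3) = t n n * (2 * n + 3) := by
      apply mul_left_cancel₀ h7
      linear_combination h2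
    have h9 : (2 * (n : ℚ) + 1) * (4 * n + 3) ≠ 0 := by positivity
    apply mul_left_cancel₀ h9
    rw [pow_succ]
    push_cast
    linear_combination h1 + (2 * (n : ℚ) + 1) * (4 * n + 3) * h6 - 4 * (2 * (n : ℚ) + 1) ^ 2 * h8

theorem s_eq (k : ℕ) : s k = (Nat.centralBinom k : ℚ) ^ 3 * (-1 / 64) ^ k := by
  induction k with
  | zero => simp [s]
  | succ k ih =>
    have h := Nat.succ_mul_centralBinom_succ k
    have h' : ((k : ℚ) + 1) * (Nat.centralBinom (k + 1) : ℚ) =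
        2 * (2 * k + 1) * (Nat.centralBinom k : ℚ) := by exact_mod_cast h
    have h0 : (k : ℚ) + 1 ≠ 0 := by positivity
    have h1 : (Nat.centralBinom (k + 1) : ℚ) = 2 * (2 * k + 1) * (Nat.centralBinom k : ℚ) / (k + 1) := by
      rw [eq_div_iff h0]
      linear_combination h'
    show s k * (-(2 * (k : ℚ) + 1) ^ 3 / (2 * (k : ℚ) + 2) ^ 3) = _
    rw [ih, h1, pow_succ]
    have h2 : (2 * (k : ℚ) + 2) = 2 * (k + 1) := by ring
    rw [h2]
    field_simp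
    ring

variable {p : ℕ} [hp : Fact p.Prime]

theorem eq_ts (_h3 : 3 < p) {n : ℕ} (hn : p = 2 * n + 1) (k : ℕ) (hk : k ≤ n) :
    EQ p 2 (t n k) (s k) := by
  induction k with
  | zero => exact EQ.refl (one_mem _)
  | succ k ih =>
    have ih' := ih (by omega)
    have hpq : (2 * (n : ℚ) + 1) = p := by rw [hn]; push_cast; ring
    have m1 : (2 * (k : ℚ) + 1) ∈ Zp p := by exact_mod_cast nat_mem (p := p) (2 * k + 1)
    have m2 : (2 * (k : ℚ) + 2) ∈ Zp p := by exact_mod_cast nat_mem (p := p) (2 * k + 2)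
    have hp2 : ((p : ℚ) ^ 2) ∈ Zp p := pow_mem p_mem 2
    have a1 : EQ p 2 (-((2 * (k : ℚ) + 1) * ((2 * (k : ℚ) + 1) ^ 2 - (p : ℚ) ^ 2)))
        (-(2 * (k : ℚ) + 1) ^ 3) :=
      ⟨neg_mem (mul_mem m1 (sub_mem (pow_mem m1 2) hp2)), neg_mem (pow_mem m1 3),
        ⟨2 * (k : ℚ) + 1, m1, by ring⟩⟩
    have a2 : EQ p 2 ((2 * (k : ℚ) + 2) * ((2 * (k : ℚ) + 2) ^ 2 - (p : ℚ) ^ 2))
        ((2 * (k : ℚ) + 2) ^ 3) :=
      ⟨mul_mem m2 (sub_mem (pow_mem m2 2) hp2), pow_mem m2 3,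
        ⟨-(2 * (k : ℚ) + 2), neg_mem m2, by ring⟩⟩
    have u2 : U p (2 * (k : ℚ) + 2) := by
      have := uNat (p := p) (k := 2 * k + 2) (by omega) (by omega)
      exact_mod_cast this
    have u3 : U p ((2 * (k : ℚ) + 2) * ((2 * (k : ℚ) + 2) ^ 2 - (p : ℚ) ^ 2)) :=
      EQ.unit (by norm_num) a2.symm (u2.pow 3)
    have h := ih'.mul (EQ.div (by norm_num) a1 a2 u3)
    rw [← hpq] at h
    exact h

theorem X_d : Pool.Agent.H547.C9.S_d := by
  intro p _ h3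
  have hodd : p % 2 = 1 := by
    rcases Nat.Prime.eq_two_or_odd (Fact.out : p.Prime) with h | h
    · omega
    · exact h
  obtain ⟨n, hn⟩ : ∃ n, p = 2 * n + 1 := ⟨p / 2, by omega⟩
  have hdiv : p / 2 = n := by omega
  have m64 : (-1 / 64 : ℚ) ∈ Zp p := m23 h3 (-1) 6 0 (by norm_num)
  have hterm : ∀ k : ℕ, (4 * (k : ℚ) + 1) * (Nat.centralBinom k : ℚ) ^ 3 * (-1 / 64) ^ k =
      (4 * (k : ℚ) + 1) * s k := by
    intro k
    rw [s_eq, mul_assoc]
  have hSU : Pool.Agent.H547.C9.SU 4 1 (-1 / 64) p = ∑ k ∈ range p, (4 * (k : ℚ) + 1) * s k := by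
    unfold Pool.Agent.H547.C9.SU
    exact sum_congr rfl fun k _ => hterm k
  have hsplit : ∑ k ∈ range p, (4 * (k : ℚ) + 1) * s k =
      ∑ k ∈ range (n + 1), (4 * (k : ℚ) + 1) * s k + ∑ k ∈ Ico (n + 1) p, (4 * (k : ℚ) + 1) * s k :=
    (sum_range_add_sum_Ico _ (by omega)).symm
  have hA : I p 2 (∑ k ∈ range (n + 1), (4 * (k : ℚ) + 1) * s k - (-1) ^ n * p) := by
    have e : ∑ k ∈ range (n + 1), (4 * (k : ℚ) + 1) * s k - (-1) ^ n * p =
        ∑ k ∈ range (n + 1), -((4 * (k : ℚ) + 1) * (t n k - s k)) := by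
      have h1 := exact_sum n
      have h2 : ((p : ℕ) : ℚ) = 2 * n + 1 := by rw [hn]; push_cast; ring
      rw [h2, ← h1, ← sum_sub_distrib]
      exact sum_congr rfl fun k _ => by ring
    rw [e]
    refine I.sum fun k hk => I.neg (I.mulL ?_ (eq_ts h3 hn k (by have := mem_range.1 hk; omega)).2.2)
    exact_mod_cast nat_mem (p := p) (4 * k + 1)
  have hB : I p 2 (∑ k ∈ Ico (n + 1) p, (4 * (k : ℚ) + 1) * s k) := by
    refine I.sum fun k hk => ?_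
    have hk' := mem_Ico.1 hk
    rw [← hterm]
    have hd : p ∣ Nat.centralBinom k := by
      have h1 := (Fact.out : p.Prime).dvd_choose_add hk'.2 hk'.2 (by omega)
      rw [← two_mul] at h1
      exact h1
    obtain ⟨c, hc⟩ := hd
    refine ⟨(4 * (k : ℚ) + 1) * (p * (c : ℚ) ^ 3) * (-1 / 64) ^ k, ?_, ?_⟩
    · refine mul_mem (mul_mem ?_ (mul_mem p_mem (pow_mem (nat_mem c) 3))) (pow_mem m64 k)
      exact_mod_cast nat_mem (p := p) (4 * k + 1)
    · rw [hc]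
      push_cast
      ring
  rw [hSU, hsplit, hdiv]
  refine icg (hA.add hB) ?_
  ring

end Pool.Agent.H224.C9
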